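import Pool.Agent.Lib.MP_e3911d_co_H.MainC

/-!
# MP_e3911d_co: almost bipartite graphs of girth `g` which are far from semi-transitive

For all `g ≥ 3`, `r` and `ε > 0` there is a graph of girth exactly `g` which has no vertex partition
into `r` parts inducing semi-transitive graphs, although its fractional chromatic number is at most
`2 + ε` (`g` even), equal to that of the cycle of length `g` (`g` odd).
-/

set_option autoImplicit false

namespace Pool.Agent.Results.MP_e3911d_co.AlmostBipartite

/-- `G` has a semi-transitive orientation: an acyclic orientation `D` such that for every directed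
path with an arc from its first vertex to its last vertex all forward arcs are present. -/
def SemiTransitive {V : Type} (G : SimpleGraph V) : Prop :=
  ∃ D : V → V → Prop,
    (∀ u v, D u v → G.Adj u v) ∧
    (∀ u v, G.Adj u v → (D u v ∨ D v u)) ∧
    (∀ u v, D u v → ¬ D v u) ∧
    (∀ v, ¬ Relation.TransGen D v v) ∧
    (∀ k : ℕ, ∀ p : ℕ → V,
      (∀ i j, i ≤ k → j ≤ k → p i = p j → i = j) →
      (∀ i, i < k → D (p i) (p (i + 1))) →
      D (p 0) (p k) →
      ∀ i j, i < j → j ≤ k → D (p i) (p j))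

/-- The fractional chromatic number: the infimum of the total weights of the nonnegative weights on
the independent sets which give every vertex weight at least `1`. -/
noncomputable def fracChrom {n : ℕ} (G : SimpleGraph (Fin n)) : ℝ :=
  sInf {x : ℝ | ∃ w : Finset (Fin n) → ℝ, (∀ I, 0 ≤ w I) ∧
    (∀ I, w I ≠ 0 → ∀ u ∈ I, ∀ v ∈ I, ¬ G.Adj u v) ∧
    (∀ v, 1 ≤ ∑ I with v ∈ I, w I) ∧ x = ∑ I, w I}

theorem result (g r : ℕ) (hg : 3 ≤ g) (ε : ℝ) (hε : 0 < ε) :
    ∃ (n : ℕ) (G : SimpleGraph (Fin n)), G.egirth = (g : ℕ∞) ∧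
      (¬ ∃ c : Fin n → Fin r, ∀ i, SemiTransitive (G.induce {v | c v = i})) ∧
      (Even g → fracChrom G ≤ 2 + ε) ∧ (Odd g → fracChrom G = 2 + 2 / ((g : ℝ) - 1)) ∧
      ∃ (m : ℕ) (B : Fin (m + 1) → Set (Fin n)), (∀ s, (G.induce (B s)).Colorable 2) ∧
        ∀ v, (1 - (if Even g then ε else 1 / (g : ℝ))) * ((m : ℝ) + 1) ≤
          (Set.ncard {s | v ∈ B s} : ℝ) :=
  Pool.Agent.Lib.MP_e3911d_H.almost_bipartite_frac g r hg ε hε

end Pool.Agent.Results.MP_e3911d_co.AlmostBipartite
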