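import Pool.Agent.Lib.MP_e3911d_co.Main

/-!
# MP_e3911d_co: critical non-semi-transitive graphs of given girth

For every `g ≥ 4` there are arbitrarily large graphs `H` of girth exactly `g` and chromatic number
exactly `g` which are not semi-transitive, while every proper subgraph of `H` is semi-transitive
and every set of at most `k ^ (1 / 100)` of the `k` vertices induces a 3-colourable subgraph.
-/

set_option autoImplicit false

namespace Pool.Agent.Results.MP_e3911d_co.CriticalLocal

/-- `G` has a semi-transitive orientation: an acyclic orientation `D` such that for every directed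
path with an arc from its first vertex to its last vertex all forward arcs are present. -/
def SemiTransitive {V : Type} (G : SimpleGraph V) : Prop :=
  ∃ D : V → V → Prop,
    (∀ u v, D u v → G.Adj u v) ∧
    (∀ u v, G.Adj u v → (D u v ∨ D v u)) ∧
    (∀ u v, D u v → ¬ D v u) ∧
    (∀ v, ¬ Relation.TransGen D v v) ∧
    (∀ k : ℕ, ∀ p : ℕ → V,
      (∀ i j, i ≤ k → j ≤ k → p i = p j → i = j) →
      (∀ i, i < k → D (p i) (p (i + 1))) →
      D (p 0) (p k) →
      ∀ i j, i < j → j ≤ k → D (p i) (p j))

theorem result :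
    ∀ g : ℕ, 4 ≤ g → ∀ m : ℕ, ∃ (k : ℕ) (H : SimpleGraph (Fin k)),
      m < k ∧ H.egirth = (g : ℕ∞) ∧ H.chromaticNumber = (g : ℕ∞) ∧
      ¬ SemiTransitive H ∧
      (∀ H' : H.Subgraph, H' ≠ ⊤ → SemiTransitive H'.coe) ∧
      ∀ S : Finset (Fin k), S.card ^ 100 ≤ k → (H.induce (S : Set (Fin k))).Colorable 3 := by
  intro g hg m
  obtain ⟨n, rfl⟩ : ∃ n, g = n + 4 := ⟨g - 4, by omega⟩
  exact Pool.Agent.Lib.MP_e3911d_co.main (n := n) m

end Pool.Agent.Results.MP_e3911d_co.CriticalLocal
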