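import Pool.Agent.Lib.MP_e3911d_co_H.MainA

/-!
# MP_e3911d_co: which `H`-colourable graphs of girth `g` can fail to be semi-transitive

For every finite graph `H`, all `g ≥ 3` and all `r` we characterise when there is a graph of girth
exactly `g` with a homomorphism to `H` which has no vertex partition into `r` parts inducing
semi-transitive graphs. For `r = 1` this is the criterion for the existence of a
non-semi-transitive `H`-colourable graph of girth exactly `g`.
-/

set_option autoImplicit false

namespace Pool.Agent.Results.MP_e3911d_co.HomDichotomy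

/-- `G` has a semi-transitive orientation: an acyclic orientation `D` such that for every directed
path with an arc from its first vertex to its last vertex all forward arcs are present. -/
def SemiTransitive {V : Type} (G : SimpleGraph V) : Prop :=
  ∃ D : V → V → Prop,
    (∀ u v, D u v → G.Adj u v) ∧
    (∀ u v, G.Adj u v → (D u v ∨ D v u)) ∧
    (∀ u v, D u v → ¬ D v u) ∧
    (∀ v, ¬ Relation.TransGen D v v) ∧
    (∀ k : ℕ, ∀ p : ℕ → V,
      (∀ i j, i ≤ k → j ≤ k → p i = p j → i = j) →
      (∀ i, i < k → D (p i) (p (i + 1))) →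
      D (p 0) (p k) →
      ∀ i j, i < j → j ≤ k → D (p i) (p j))

/-- `H` is `L`-good: it has an acyclic orientation `D` in which no directed path on at least `L`
vertices has adjacent ends. -/
def Good (L : ℕ) {V : Type} (H : SimpleGraph V) : Prop :=
  ∃ D : V → V → Prop,
    (∀ u v, D u v → H.Adj u v) ∧
    (∀ u v, H.Adj u v → (D u v ∨ D v u)) ∧
    (∀ u v, D u v → ¬ D v u) ∧
    (∀ v, ¬ Relation.TransGen D v v) ∧
    (∀ k : ℕ, L ≤ k + 1 → ∀ p : ℕ → V,
      (∀ i j, i ≤ k → j ≤ k → p i = p j → i = j) →
      (∀ i, i < k → D (p i) (p (i + 1))) → ¬ H.Adj (p 0) (p k))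

theorem result (g r : ℕ) (hg : 3 ≤ g) (W : Type) [Finite W] (H : SimpleGraph W) :
    (∃ (n : ℕ) (G : SimpleGraph (Fin n)), G.egirth = (g : ℕ∞) ∧ Nonempty (G →g H) ∧
      ¬ ∃ c : Fin n → Fin r, ∀ i, SemiTransitive (G.induce {v | c v = i})) ↔
    (Nonempty (SimpleGraph.cycleGraph g →g H) ∧
      ¬ ∃ c : W → Fin r, ∀ i, Good (max g 4) (H.induce {w | c w = i})) :=
  Pool.Agent.Lib.MP_e3911d_H.dichotomy g r hg H

end Pool.Agent.Results.MP_e3911d_co.HomDichotomy
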