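import Mathlib
import Pool.Agent.Lib.MP_e3911d_co.Small
import Pool.Agent.Lib.MP_e3911d_co.Lower

set_option autoImplicit false

open Pool.Agent.MP_e3911d_co

namespace Pool.Agent.Results.MP_e3911d_co.SmallOrder

/-- For every `g ≥ 5` there is a graph of girth exactly `g` without a semi-transitive orientation
which has at most `(10 ^ 9 g (log g) ^ 2) ^ g` vertices and maximum degree at most
`10 ^ 9 g (log g) ^ 2`; and every graph of girth at least `g` without a semi-transitive orientation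
has at least `(g - 2) ^ ⌊(g - 1) / 2⌋` vertices and a vertex of degree at least `g - 1`. -/
theorem result :
    (∀ g : ℕ, 5 ≤ g → ∃ (n : ℕ) (G : SimpleGraph (Fin n)),
      G.egirth = (g : ℕ∞) ∧
      (n : ℝ) ≤ (10 ^ 9 * g * (Real.log g) ^ 2) ^ g ∧
      (∀ x, ((G.neighborSet x).ncard : ℝ) ≤ 10 ^ 9 * g * (Real.log g) ^ 2) ∧
      ¬ ∃ D : Fin n → Fin n → Prop,
        (∀ u v, D u v → G.Adj u v) ∧
        (∀ u v, G.Adj u v → (D u v ∨ D v u)) ∧
        (∀ u v, D u v → ¬ D v u) ∧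
        (∀ v, ¬ Relation.TransGen D v v) ∧
        (∀ k : ℕ, ∀ p : ℕ → Fin n,
          (∀ i j, i ≤ k → j ≤ k → p i = p j → i = j) →
          (∀ i, i < k → D (p i) (p (i + 1))) →
          D (p 0) (p k) →
          ∀ i j, i < j → j ≤ k → D (p i) (p j))) ∧
    (∀ g : ℕ, 5 ≤ g → ∀ (n : ℕ) (G : SimpleGraph (Fin n)),
      (g : ℕ∞) ≤ G.egirth →
      (¬ ∃ D : Fin n → Fin n → Prop,
        (∀ u v, D u v → G.Adj u v) ∧
        (∀ u v, G.Adj u v → (D u v ∨ D v u)) ∧
        (∀ u v, D u v → ¬ D v u) ∧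
        (∀ v, ¬ Relation.TransGen D v v) ∧
        (∀ k : ℕ, ∀ p : ℕ → Fin n,
          (∀ i j, i ≤ k → j ≤ k → p i = p j → i = j) →
          (∀ i, i < k → D (p i) (p (i + 1))) →
          D (p 0) (p k) →
          ∀ i j, i < j → j ≤ k → D (p i) (p j))) →
      (g - 2) ^ ((g - 1) / 2) ≤ n ∧ ∃ x, g - 1 ≤ (G.neighborSet x).ncard) := by
  refine ⟨fun g hg => ?_, fun g hg n G hG hs => ?_⟩
  · obtain ⟨n, G, h1, h2, h3, h4⟩ := small hg
    exact ⟨n, G, h1, h3, h4, h2⟩
  · have h := lower (G := G) (g := g) (by omega) hG hs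
    rw [Fintype.card_fin] at h
    exact h

end Pool.Agent.Results.MP_e3911d_co.SmallOrder
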